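import Pool.Agent.H17.P3.Glue

set_option autoImplicit false

/-!
The code side of the rooted tree theorem (MP_a46c6f_co, target (C)): the inverse of the reduced
Laplacian of a rooted critical code has midpoints, and every induced path with the colours `0110`
has a bad point.
-/

namespace Pool.Agent.H6.P4

open Pool.Agent.H98.Code Pool.Agent.H17.TR

section
variable {V : Type} [Fintype V] [DecidableEq V]

/-- the Laplacian -/
def Lap (H : V → V → ZMod 2) (f : V → ZMod 2) (v : V) : ZMod 2 := ∑ w, H v w * (f v + f w)

/-- the word with first coordinate `f` -/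
def wd (H : V → V → ZMod 2) (f : V → ZMod 2) : V → K := fun v => (f v, ∑ w, H v w * f w)

theorem lap_eq (H : V → V → ZMod 2) (f : V → ZMod 2) (v : V) :
    Lap H f v = (∑ w, H v w) * f v + ∑ w, H v w * f w := by
  unfold Lap
  rw [Finset.sum_mul, ← Finset.sum_add_distrib]
  exact Finset.sum_congr rfl fun w _ => mul_add _ _ _

theorem lap_add (H : V → V → ZMod 2) (f g : V → ZMod 2) (v : V) :
    Lap H (f + g) v = Lap H f v + Lap H g v := by
  unfold Lap
  rw [← Finset.sum_add_distrib]
  refine Finset.sum_congr rfl fun w _ => ?_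
  rw [Pi.add_apply, Pi.add_apply]
  ring

theorem lap_sym {H : V → V → ZMod 2} (hs : ∀ u v, H u v = H v u) (f g : V → ZMod 2) :
    ∑ v, g v * Lap H f v = ∑ v, f v * Lap H g v := by
  have h1 : ∀ f g : V → ZMod 2, ∑ v, g v * Lap H f v =
      (∑ v, (∑ w, H v w) * (g v * f v)) + ∑ v, ∑ w, H v w * (g v * f w) := by
    intro f g
    rw [← Finset.sum_add_distrib]
    refine Finset.sum_congr rfl fun v _ => ?_
    rw [lap_eq, mul_add, Finset.mul_sum]
    congr 1
    · ring
    · exact Finset.sum_congr rfl fun w _ => by ring
  rw [h1, h1]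
  congr 1
  · exact Finset.sum_congr rfl fun v _ => by ring
  · rw [Finset.sum_comm]
    refine Finset.sum_congr rfl fun v _ => Finset.sum_congr rfl fun w _ => ?_
    rw [hs w v]
    ring

theorem sum_lap {H : V → V → ZMod 2} (hs : ∀ u v, H u v = H v u) (f : V → ZMod 2) :
    ∑ v, Lap H f v = 0 := by
  have h1 := lap_sym hs f (fun _ => 1)
  have h2 : ∀ v, Lap H (fun _ => (1 : ZMod 2)) v = 0 := by
    intro v
    unfold Lap
    refine Finset.sum_eq_zero fun w _ => ?_
    rw [show (1 : ZMod 2) + 1 = 0 from by decide, mul_zero]
  simp only [one_mul, h2, mul_zero, Finset.sum_const_zero] at h1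
  exact h1

theorem wd_mem {L : Submodule (ZMod 2) (V → K)} {H : V → V → ZMod 2} (hH : IsMat L H)
    (f : V → ZMod 2) : wd H f ∈ L := by
  rw [hH.mem]
  intro v
  rfl

theorem eq_wd {L : Submodule (ZMod 2) (V → K)} {H : V → V → ZMod 2} (hH : IsMat L H)
    {u : V → K} (hu : u ∈ L) : u = wd H (fun v => (u v).1) := by
  have h1 := (hH.mem u).1 hu
  funext v
  exact Prod.ext rfl (h1 v)

/-- the Laplacian at `v` is determined by the letter at `v` -/
theorem lap_wd (H : V → V → ZMod 2) (f : V → ZMod 2) (v : V) :
    Lap H f v = (∑ w, H v w) * (wd H f v).1 + (wd H f v).2 := lap_eq H f v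

theorem lap_of_zero {H : V → V → ZMod 2} {f : V → ZMod 2} {v : V} (h : wd H f v = 0) :
    f v = 0 ∧ Lap H f v = 0 := by
  refine ⟨congrArg Prod.fst h, ?_⟩
  rw [lap_wd, h]
  simp

theorem lap_of_z {H : V → V → ZMod 2} {f : V → ZMod 2} {v : V} (h : wd H f v = z) :
    f v = 0 ∧ Lap H f v = 1 := by
  refine ⟨congrArg Prod.fst h, ?_⟩
  rw [lap_wd, h]
  simp [z]

theorem zero_of_lap {H : V → V → ZMod 2} {f : V → ZMod 2} {v : V} (h : f v = 0)
    (h' : Lap H f v = 0) : wd H f v = 0 := by
  rw [lap_eq, h, mul_zero, zero_add] at h'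
  exact Prod.ext h h'

/-- the two summands of a splitting -/
theorem split_raw {L : Submodule (ZMod 2) (V → K)} {H : V → V → ZMod 2} (hH : IsMat L H) {e : V}
    (hc : CritAt L e) (s : V → ZMod 2) (hs0 : s ≠ 0) (hse : s e = 0) (hle : Lap H s e = 0)
    (hz : ∀ v, s v = 0 → Lap H s v = 0) :
    ∃ (f₁ f₂ : V → ZMod 2) (g : V), f₁ + f₂ = s ∧ wd H f₁ g = z ∧ wd H f₂ g = z ∧
      ∀ v, v ≠ g → wd H f₁ v = 0 ∨ wd H f₂ v = 0 := by
  have h1 : wd H s ≠ 0 := by
    intro hh
    apply hs0
    funext v
    exact congrArg Prod.fst (congrFun hh v)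
  have h2 : ZFree (wd H s) := by
    intro v hv
    have h3 := lap_of_z hv
    rw [hz v h3.1] at h3
    exact absurd h3.2 (by decide)
  obtain ⟨g, c₁, hc₁, c₂, hc₂, hs, hg1, hg2, hd⟩ :=
    hc _ (wd_mem hH s) h1 h2 (zero_of_lap hse hle)
  have e1 := eq_wd hH hc₁
  have e2 := eq_wd hH hc₂
  refine ⟨fun v => (c₁ v).1, fun v => (c₂ v).1, g, ?_, ?_, ?_, ?_⟩
  · funext v
    have := congrArg Prod.fst (congrFun hs v)
    exact this
  · rw [← e1]
    exact hg1
  · rw [← e2]
    exact hg2
  · rw [← e1, ← e2]
    exact hd

/-- the reduced Laplacian is injective -/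
theorem ker {L : Submodule (ZMod 2) (V → K)} {H : V → V → ZMod 2} (hH : IsMat L H) {e : V}
    (hc : CritAt L e) (f : V → ZMod 2) (he : f e = 0) (h : ∀ v, v ≠ e → Lap H f v = 0) :
    f = 0 := by
  have hle : Lap H f e = 0 := by
    have h1 := sum_lap hH.sym f
    rw [Fintype.sum_eq_single e h] at h1
    exact h1
  have hall : ∀ v, Lap H f v = 0 := by
    intro v
    by_cases hv : v = e
    · rw [hv, hle]
    · exact h v hv
  by_contra hf
  obtain ⟨f₁, f₂, g, hs, hg1, hg2, hd⟩ := split_raw hH hc f hf he hle fun v _ => hall v
  have h1 := sum_lap hH.sym f₁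
  rw [Fintype.sum_eq_single g] at h1
  · rw [(lap_of_z hg1).2] at h1
    exact one_ne_zero h1
  · intro v hv
    rcases hd v hv with h2 | h2
    · exact (lap_of_zero h2).2
    · have h3 := lap_add H f₁ f₂ v
      rw [hs, hall, (lap_of_zero h2).2, add_zero] at h3
      exact h3.symm

/-- the inverse of the reduced Laplacian -/
theorem exists_inv {L : Submodule (ZMod 2) (V → K)} {H : V → V → ZMod 2} (hH : IsMat L H) {e : V}
    (hc : CritAt L e) : ∃ M : V → V → ZMod 2, (∀ x, M x e = 0) ∧
      ∀ x v, Lap H (M x) v = (if v = x then 1 else 0) + (if v = e then 1 else 0) := by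
  set R : (V → ZMod 2) →+ (V → ZMod 2) :=
    { toFun := fun f v => if v = e then f e else Lap H f v
      map_zero' := by
        funext v
        by_cases hv : v = e
        · simp [hv]
        · simp [hv, Lap]
      map_add' := by
        intro f g
        funext v
        by_cases hv : v = e
        · simp [hv]
        · simp [hv, lap_add] } with hR
  have hval : ∀ f v, R f v = if v = e then f e else Lap H f v := fun f v => rfl
  have hinj : Function.Injective R := by
    rw [injective_iff_map_eq_zero]
    intro f hf
    apply ker hH hc f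
    · have h1 := congrFun hf e
      rw [hval, if_pos rfl] at h1
      exact h1
    · intro v hv
      have h1 := congrFun hf v
      rw [hval, if_neg hv] at h1
      exact h1
  have hsur : Function.Surjective R := Finite.injective_iff_surjective.1 hinj
  choose M hM using fun x : V => hsur (fun v => if v = e then 0 else if v = x then 1 else 0)
  have h0 : ∀ x, M x e = 0 := by
    intro x
    have h1 := congrFun (hM x) e
    rw [hval, if_pos rfl, if_pos rfl] at h1
    exact h1
  have h1 : ∀ x v, v ≠ e → Lap H (M x) v = if v = x then 1 else 0 := by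
    intro x v hv
    have h2 := congrFun (hM x) v
    rw [hval, if_neg hv, if_neg hv] at h2
    exact h2
  refine ⟨M, h0, fun x v => ?_⟩
  by_cases hv : v = e
  · subst hv
    have h2 := sum_lap hH.sym (M x)
    rw [Fintype.sum_eq_add_sum_subtype_ne _ v] at h2
    have h3 : ∑ i : {w // w ≠ v}, Lap H (M x) i.1 = ∑ i : {w // w ≠ v}, if i.1 = x then 1 else 0 :=
      Finset.sum_congr rfl fun i _ => h1 x i.1 i.2
    have h4 : ∑ w, (if w = x then (1 : ZMod 2) else 0) = 1 := by
      rw [Finset.sum_ite_eq' Finset.univ x, if_pos (Finset.mem_univ x)]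
    rw [Fintype.sum_eq_add_sum_subtype_ne _ v, ← h3] at h4
    rw [if_pos rfl]
    revert h2 h4
    generalize Lap H (M x) v = A
    generalize (∑ i : {w // w ≠ v}, Lap H (M x) i.1) = B
    generalize (if v = x then (1 : ZMod 2) else 0) = C
    revert A B C
    decide
  · rw [h1 x v hv, if_neg hv, add_zero]

variable {H : V → V → ZMod 2} {e : V} {M : V → V → ZMod 2}

theorem pair_eq (hl : ∀ x v, Lap H (M x) v =
    (if v = x then 1 else 0) + (if v = e then 1 else 0)) (f : V → ZMod 2) (he : f e = 0) (y : V) :
    ∑ v, f v * Lap H (M y) v = f y := by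
  simp only [hl, mul_add, Finset.sum_add_distrib, mul_ite, mul_one, mul_zero,
    Finset.sum_ite_eq', Finset.mem_univ, if_true, he, add_zero]

theorem m_sym (hs : ∀ u v, H u v = H v u) (h0 : ∀ x, M x e = 0) (hl : ∀ x v, Lap H (M x) v =
    (if v = x then 1 else 0) + (if v = e then 1 else 0)) (x y : V) : M x y = M y x := by
  rw [← pair_eq hl (M x) (h0 x) y, ← pair_eq hl (M y) (h0 y) x, lap_sym hs]

theorem recon (hs : ∀ u v, H u v = H v u) (h0 : ∀ x, M x e = 0) (hl : ∀ x v, Lap H (M x) v =
    (if v = x then 1 else 0) + (if v = e then 1 else 0)) (f : V → ZMod 2) (he : f e = 0) (y : V) :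
    f y = ∑ v, Lap H f v * M v y := by
  rw [← pair_eq hl f he y, lap_sym hs]
  refine Finset.sum_congr rfl fun v _ => ?_
  rw [m_sym hs h0 hl y v, mul_comm]

/-- the splitting of a closed family of points -/
theorem core {L : Submodule (ZMod 2) (V → K)} (hH : IsMat L H) (hc : CritAt L e)
    (h0 : ∀ x, M x e = 0) (hl : ∀ x v, Lap H (M x) v =
      (if v = x then 1 else 0) + (if v = e then 1 else 0)) {n : ℕ} (hn : ((n : ℕ) : ZMod 2) = 0)
    (hn0 : 0 < n) (p : Fin n → V) (hp : Function.Injective p) (hpe : ∀ i, p i ≠ e)
    (hcl : ∀ j, ∑ i, M (p i) (p j) = 1) :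
    ∃ (α : Fin n → ZMod 2) (g : V), ∑ i, α i = 1 ∧
      (∀ j, M g (p j) = α j + ∑ i, α i * M (p i) (p j)) ∧ (M g g = ∑ i, α i * M (p i) g) ∧
      ∀ y, ∑ i, M (p i) y = 0 → M g y = ∑ i, α i * M (p i) y := by
  set s : V → ZMod 2 := fun y => ∑ i, M (p i) y with hsdef
  have hsl : ∀ v, Lap H s v = ∑ i, Lap H (M (p i)) v := by
    intro v
    unfold Lap
    rw [Finset.sum_comm]
    refine Finset.sum_congr rfl fun w _ => ?_
    rw [← Finset.mul_sum, Finset.sum_add_distrib]
  have hsl2 : ∀ v, Lap H s v = ∑ i, (if v = p i then 1 else 0) := by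
    intro v
    rw [hsl]
    simp only [hl, Finset.sum_add_distrib]
    have h1 : ∑ _i : Fin n, (if v = e then (1 : ZMod 2) else 0) = 0 := by
      rw [Finset.sum_const, Finset.card_univ, Fintype.card_fin, nsmul_eq_mul, hn, zero_mul]
    rw [h1, add_zero]
  have hslp : ∀ j, Lap H s (p j) = 1 := by
    intro j
    rw [hsl2, Finset.sum_eq_single j]
    · rw [if_pos rfl]
    · intro i _ hi
      rw [if_neg]
      intro h
      exact hi (hp h).symm
    · intro h
      exact absurd (Finset.mem_univ j) h
  have hsl0 : ∀ v, (∀ j, v ≠ p j) → Lap H s v = 0 := by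
    intro v hv
    rw [hsl2]
    exact Finset.sum_eq_zero fun i _ => by rw [if_neg (hv i)]
  have hse : s e = 0 := Finset.sum_eq_zero fun i _ => h0 (p i)
  have hs0 : s ≠ 0 := by
    intro h
    have h1 := hcl ⟨0, hn0⟩
    have h2 : s (p ⟨0, hn0⟩) = 1 := h1
    rw [h] at h2
    exact zero_ne_one h2
  obtain ⟨f₁, f₂, g, hs, hg1, hg2, hd⟩ := split_raw hH hc s hs0 hse
    (hsl0 e fun j h => hpe j h.symm) (by
      intro v hv
      apply hsl0
      intro j hj
      rw [hj] at hv
      have h1 : s (p j) = 1 := hcl j
      rw [hv] at h1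
      exact zero_ne_one h1)
  have hsum : ∀ v, f₁ v + f₂ v = s v := fun v => congrFun hs v
  have hlsum : ∀ v, Lap H f₁ v + Lap H f₂ v = Lap H s v := by
    intro v
    rw [← hs, lap_add]
  -- `g` is not one of the points
  have hgp : ∀ j, g ≠ p j := by
    intro j hj
    have h1 := hsum g
    rw [(lap_of_z hg1).1, (lap_of_z hg2).1, hj] at h1
    have h2 : s (p j) = 1 := hcl j
    rw [← h1] at h2
    exact absurd h2 (by decide)
  have hout : ∀ v, v ≠ g → (∀ j, v ≠ p j) → Lap H f₁ v = 0 := by
    intro v hv hvp
    rcases hd v hv with h1 | h1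
    · exact (lap_of_zero h1).2
    · have h2 := hlsum v
      rw [(lap_of_zero h1).2, hsl0 v hvp, add_zero] at h2
      exact h2
  have hfe : f₁ e = 0 := by
    by_cases hge : e = g
    · rw [hge]
      exact (lap_of_z hg1).1
    · rcases hd e hge with h1 | h1
      · exact (lap_of_zero h1).1
      · have h2 := hsum e
        rw [(lap_of_zero h1).1, hse, add_zero] at h2
        exact h2
  -- sums over `V`
  have hbig : ∀ F : V → ZMod 2, (∀ v, v ≠ g → (∀ j, v ≠ p j) → F v = 0) →
      ∑ v, F v = F g + ∑ i, F (p i) := by
    intro F hF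
    have h1 : ∑ v ∈ insert g (Finset.univ.image p), F v = ∑ v, F v := by
      apply Finset.sum_subset (Finset.subset_univ _)
      intro v _ hv
      rw [Finset.mem_insert, not_or, Finset.mem_image] at hv
      apply hF v hv.1
      intro j hj
      exact hv.2 ⟨j, Finset.mem_univ j, hj.symm⟩
    rw [← h1, Finset.sum_insert, Finset.sum_image]
    · intro i _ j _ h
      exact hp h
    · rw [Finset.mem_image]
      rintro ⟨j, _, hj⟩
      exact hgp j hj.symm
  have hf1 : ∀ y, f₁ y = M g y + ∑ i, Lap H f₁ (p i) * M (p i) y := by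
    intro y
    rw [recon hH.sym h0 hl f₁ hfe y, hbig (fun v => Lap H f₁ v * M v y), (lap_of_z hg1).2,
      one_mul]
    intro v hv hvp
    rw [hout v hv hvp, zero_mul]
  refine ⟨fun i => Lap H f₁ (p i), g, ?_, ?_, ?_, ?_⟩
  · have h1 := sum_lap hH.sym f₁
    rw [hbig (fun v => Lap H f₁ v) hout, (lap_of_z hg1).2] at h1
    revert h1
    generalize (∑ i, Lap H f₁ (p i)) = A
    revert A
    decide
  · intro j
    have h1 := hf1 (p j)
    have h2 : s (p j) = 1 := hcl j
    have h3 := hsum (p j)
    have h4 := hlsum (p j)
    rw [hslp] at h4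
    rcases hd (p j) (hgp j).symm with h5 | h5
    · rw [(lap_of_zero h5).1] at h1
      beta_reduce
      rw [(lap_of_zero h5).2, zero_add]
      exact (CharTwo.add_eq_zero.1 h1.symm)
    · rw [(lap_of_zero h5).1, add_zero, h2] at h3
      rw [(lap_of_zero h5).2, add_zero] at h4
      rw [h3] at h1
      beta_reduce
      rw [h4]
      revert h1
      generalize (∑ i, Lap H f₁ (p i) * M (p i) (p j)) = A
      generalize M g (p j) = B
      revert A B
      decide
  · have h1 := hf1 g
    rw [(lap_of_z hg1).1] at h1
    exact (CharTwo.add_eq_zero.1 h1.symm)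
  · intro y hy
    have h1 := hf1 y
    have h2 : f₁ y = 0 := by
      by_cases hyg : y = g
      · rw [hyg]
        exact (lap_of_z hg1).1
      · rcases hd y hyg with h3 | h3
        · exact (lap_of_zero h3).1
        · have h4 := hsum y
          have h5 : s y = 0 := hy
          rw [(lap_of_zero h3).1, h5, add_zero] at h4
          exact h4
    rw [h2] at h1
    exact (CharTwo.add_eq_zero.1 h1.symm)

end

/-- **the code side** -/
theorem code_side : Pool.Agent.H17.P3.CodeSide := by
  intro V _ _ L e H _ hc hH
  obtain ⟨M, h0, hl⟩ := exists_inv hH hc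
  have hsym := m_sym hH.sym h0 hl
  have he : ∀ x, M e x = 0 := fun x => by rw [hsym, h0]
  refine ⟨M, hsym, he, ?_, ?_, ?_⟩
  · intro u hu v
    have h1 := hl v u
    rw [if_neg hu, add_zero] at h1
    rw [← h1]
    unfold Lap
    refine Finset.sum_congr rfl fun w _ => ?_
    rw [hsym u v, hsym w v]
  · intro u v huv hne
    have hue : u ≠ e := by
      rintro rfl
      exact hne (by rw [he, he])
    have hve : v ≠ e := by
      rintro rfl
      apply hne
      rw [h0, huv, h0]
    have huv' : u ≠ v := by
      rintro rfl
      exact hne rfl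
    have hvu : M v u = M u v := hsym v u
    have hmuv : M u v = M u u + 1 := by
      revert hne
      generalize M u v = A
      generalize M u u = B
      revert A B
      decide
    obtain ⟨α, g, h1, h2, h3, h4⟩ := core hH hc h0 hl (n := 2) (by decide) (by norm_num) ![u, v]
      (by
        intro i j hij
        fin_cases i <;> fin_cases j
        · rfl
        · exact absurd hij huv'
        · exact absurd hij.symm huv'
        · rfl)
      (by
        intro i
        fin_cases i
        · exact hue
        · exact hve)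
      (by
        intro j
        rw [Fin.sum_univ_two]
        fin_cases j
        · change M u u + M v u = 1
          rw [hvu, hmuv]
          generalize M u u = B
          revert B
          decide
        · change M u v + M v v = 1
          rw [← huv, hmuv]
          generalize M u u = B
          revert B
          decide)
    have h2u := h2 0
    have h2v := h2 1
    simp only [Fin.sum_univ_two, Matrix.cons_val_zero, Matrix.cons_val_one] at h1 h2u h2v h3 h4
    rw [hvu, hmuv] at h2u
    rw [← huv, hmuv] at h2v
    have h5 : M g u = M u u + 1 := by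
      rw [h2u]
      revert h1
      generalize α 0 = A
      generalize α 1 = B
      generalize M u u = C
      revert A B C
      decide
    have h6 : M g v = M u u + 1 := by
      rw [h2v]
      revert h1
      generalize α 0 = A
      generalize α 1 = B
      generalize M u u = C
      revert A B C
      decide
    have h7 : M g g = M u u + 1 := by
      rw [h3, hsym u g, hsym v g, h5, h6]
      revert h1
      generalize α 0 = A
      generalize α 1 = B
      generalize M u u = C
      revert A B C
      decide
    refine ⟨g, ?_, ?_, ?_, ?_⟩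
    · rw [h7]
      generalize M u u = B
      revert B
      decide
    · rw [h5, h7]
    · rw [h6, h7]
    · intro x hx
      rw [h4 x (by rw [hx]; exact CharTwo.add_self_eq_zero _), ← hx, ← add_mul, h1, one_mul]
  · intro a b c d hP ha hb hcc hd
    obtain ⟨hab, hbc, hcd, hac, had, hbd⟩ := hP
    have hba : M b a = 1 := by rw [hsym, hab]
    have hcb : M c b = 1 := by rw [hsym, hbc]
    have hdc : M d c = 1 := by rw [hsym, hcd]
    have hca : M c a = 0 := by rw [hsym, hac]
    have hda : M d a = 0 := by rw [hsym, had]
    have hdb : M d b = 0 := by rw [hsym, hbd]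
    have h01 : (0 : ZMod 2) ≠ 1 := by decide
    have nab : a ≠ b := by rintro rfl; exact h01 (ha.symm.trans hb)
    have nac : a ≠ c := by rintro rfl; exact h01 (ha.symm.trans hcc)
    have nad : a ≠ d := by rintro rfl; exact h01 (hdb.symm.trans hab)
    have nbc : b ≠ c := by rintro rfl; exact h01 (hbd.symm.trans hcd)
    have nbd : b ≠ d := by rintro rfl; exact h01 (hd.symm.trans hb)
    have ncd : c ≠ d := by rintro rfl; exact h01 (hd.symm.trans hcc)
    obtain ⟨α, g, h1, h2, h3, h4⟩ := core hH hc h0 hl (n := 4) (by decide) (by norm_num)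
      ![a, b, c, d]
      (by
        intro i j hij
        fin_cases i <;> fin_cases j <;> first
          | rfl
          | exact absurd hij nab
          | exact absurd hij nac
          | exact absurd hij nad
          | exact absurd hij nbc
          | exact absurd hij nbd
          | exact absurd hij ncd
          | exact absurd hij.symm nab
          | exact absurd hij.symm nac
          | exact absurd hij.symm nad
          | exact absurd hij.symm nbc
          | exact absurd hij.symm nbd
          | exact absurd hij.symm ncd)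
      (by
        intro i
        fin_cases i
        · change a ≠ e
          rintro rfl
          exact h01 ((he b).symm.trans hab)
        · change b ≠ e
          rintro rfl
          exact h01 ((he c).symm.trans hbc)
        · change c ≠ e
          rintro rfl
          exact h01 ((he d).symm.trans hcd)
        · change d ≠ e
          rintro rfl
          exact h01 ((he c).symm.trans hdc))
      (by
        intro j
        rw [Fin.sum_univ_four]
        fin_cases j
        · change M a a + M b a + M c a + M d a = 1
          rw [ha, hba, hca, hda]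
          decide
        · change M a b + M b b + M c b + M d b = 1
          rw [hab, hb, hcb, hdb]
          decide
        · change M a c + M b c + M c c + M d c = 1
          rw [hac, hbc, hcc, hdc]
          decide
        · change M a d + M b d + M c d + M d d = 1
          rw [had, hbd, hcd, hd]
          decide)
    have h2a : M g a = α 0 + (α 0 * M a a + α 1 * M b a + α 2 * M c a + α 3 * M d a) := by
      have := h2 0
      rw [Fin.sum_univ_four] at this
      exact this
    have h2b : M g b = α 1 + (α 0 * M a b + α 1 * M b b + α 2 * M c b + α 3 * M d b) := by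
      have := h2 1
      rw [Fin.sum_univ_four] at this
      exact this
    have h2c : M g c = α 2 + (α 0 * M a c + α 1 * M b c + α 2 * M c c + α 3 * M d c) := by
      have := h2 2
      rw [Fin.sum_univ_four] at this
      exact this
    have h2d : M g d = α 3 + (α 0 * M a d + α 1 * M b d + α 2 * M c d + α 3 * M d d) := by
      have := h2 3
      rw [Fin.sum_univ_four] at this
      exact this
    rw [ha, hba, hca, hda] at h2a
    rw [hab, hb, hcb, hdb] at h2b
    rw [hac, hbc, hcc, hdc] at h2c
    rw [had, hbd, hcd, hd] at h2d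
    rw [Fin.sum_univ_four] at h1
    refine ⟨g, ⟨?_, ?_⟩, ?_⟩
    · rw [h2a, h2d]
      revert h1
      generalize α 0 = A
      generalize α 1 = B
      generalize α 2 = C
      generalize α 3 = D
      revert A B C D
      decide
    · rw [h2b, h2c]
      revert h1
      generalize α 0 = A
      generalize α 1 = B
      generalize α 2 = C
      generalize α 3 = D
      revert A B C D
      decide
    · intro y hy1 hy2 hy3
      have h5 := h4 y
      rw [Fin.sum_univ_four, Fin.sum_univ_four] at h5
      change M a y + M b y + M c y + M d y = 0 →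
        M g y = α 0 * M a y + α 1 * M b y + α 2 * M c y + α 3 * M d y at h5
      rw [← hy1, ← hy2, ← hy3] at h5
      rw [h5 (by
        generalize M a y = A
        revert A
        decide), ← add_mul, ← add_mul, ← add_mul, h1, one_mul]

end Pool.Agent.H6.P4
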